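import Pool.Agent.BCS.Stmts

set_option autoImplicit false

noncomputable section

open scoped ContDiff Topology
open Set MeasureTheory

namespace Pool.Agent.BCS.H15

open Pool.Agent.BCS

variable {m : ℕ}

/-- joint smoothness -/
def JS (h : ℂ → (Fin m → ℝ) → ℝ) : Prop :=
  ContDiff ℝ ∞ (fun p : ℂ × (Fin m → ℝ) => h p.1 p.2)

theorem smooth_D {h : ℂ → (Fin m → ℝ) → ℝ} (hh : JS h) (v : ℂ) :
    JS (fun z t => fderiv ℝ (fun z => h z t) z v) := by
  unfold JS at hh ⊢
  have h1 : ContDiff ℝ ∞ (Function.uncurry (fun (p : ℂ × (Fin m → ℝ)) (z : ℂ) => h z p.2)) := by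
    have h2 : ContDiff ℝ ∞ (fun x : (ℂ × (Fin m → ℝ)) × ℂ => (x.2, x.1.2)) :=
      contDiff_snd.prodMk (contDiff_snd.comp contDiff_fst)
    exact hh.comp h2
  have h3 : ContDiff ℝ ∞ (fun p : ℂ × (Fin m → ℝ) => fderiv ℝ (fun z => h z p.2) p.1) :=
    ContDiff.fderiv (𝕜 := ℝ) (m := ∞) (n := ∞) h1 contDiff_fst (by simp)
  exact h3.clm_apply contDiff_const

theorem slice {h : ℂ → (Fin m → ℝ) → ℝ} (hh : JS h) (t : Fin m → ℝ) :
    ContDiff ℝ ∞ (fun z => h z t) := by
  have h2 : ContDiff ℝ ∞ (fun z : ℂ => (z, t)) := contDiff_id.prodMk contDiff_const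
  exact ContDiff.comp (g := fun p : ℂ × (Fin m → ℝ) => h p.1 p.2) hh h2

theorem slice_cont {h : ℂ → (Fin m → ℝ) → ℝ} (hh : JS h) (z : ℂ) : Continuous (h z) := by
  have h2 : Continuous (fun t : Fin m → ℝ => (z, t)) := by fun_prop
  have h3 : Continuous (fun p : ℂ × (Fin m → ℝ) => h p.1 p.2) := ContDiff.continuous hh
  exact h3.comp h2

theorem int_of_cont {h : (Fin m → ℝ) → ℝ} (hh : Continuous h) :
    IntegrableOn h (Icc (0 : Fin m → ℝ) 1) :=
  hh.continuousOn.integrableOn_compact isCompact_Icc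

theorem tI_add {f g : (Fin m → ℝ) → ℝ} (hf : Continuous f) (hg : Continuous g) :
    tI (fun t => f t + g t) = tI f + tI g :=
  integral_add (int_of_cont hf) (int_of_cont hg)

theorem tI_mul (c : ℝ) (f : (Fin m → ℝ) → ℝ) : tI (fun t => c * f t) = c * tI f :=
  integral_const_mul c f

theorem vol_Icc : (volume : Measure (Fin m → ℝ)).real (Icc (0 : Fin m → ℝ) 1) = 1 := by
  rw [Measure.real, Real.volume_Icc_pi]
  simp

theorem tI_pos {f : (Fin m → ℝ) → ℝ} (hf : Continuous f) (hpos : ∀ t, 0 < f t) : 0 < tI f := by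
  have hne : (Icc (0 : Fin m → ℝ) 1).Nonempty := ⟨0, by simp⟩
  obtain ⟨t0, _, ht0⟩ := isCompact_Icc.exists_isMinOn hne hf.continuousOn
  have h1 : f t0 * (volume : Measure (Fin m → ℝ)).real (Icc (0 : Fin m → ℝ) 1) ≤ tI f := by
    have h2 : ∫ _ in Icc (0 : Fin m → ℝ) 1, f t0 ≤ tI f := by
      refine setIntegral_mono_on (int_of_cont continuous_const) (int_of_cont hf)
        measurableSet_Icc ?_
      intro t ht
      exact ht0 ht
    rw [setIntegral_const, smul_eq_mul, mul_comm] at h2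
    exact h2
  rw [vol_Icc, mul_one] at h1
  exact (hpos t0).trans_le h1

theorem js_exp {χ : ℂ → (Fin m → ℝ) → ℝ} (hχ : JS χ) (q : ℝ) :
    JS (fun z t => Real.exp (q * χ z t)) := by
  have : ContDiff ℝ ∞ (fun p : ℂ × (Fin m → ℝ) => χ p.1 p.2) := hχ
  unfold JS
  exact (contDiff_const.mul this).exp

theorem js_mul {f g : ℂ → (Fin m → ℝ) → ℝ} (hf : JS f) (hg : JS g) :
    JS (fun z t => f z t * g z t) := by
  have h1 : ContDiff ℝ ∞ (fun p : ℂ × (Fin m → ℝ) => f p.1 p.2) := hf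
  have h2 : ContDiff ℝ ∞ (fun p : ℂ × (Fin m → ℝ) => g p.1 p.2) := hg
  exact h1.mul h2

theorem diffAt {E : Type} [NormedAddCommGroup E] [NormedSpace ℝ E] {f : E → ℝ}
    (hf : ContDiff ℝ ∞ f) (z : E) : DifferentiableAt ℝ f z :=
  (hf.differentiable (by simp)) z

/-- the derivative of `e^{qχ} g` -/
theorem der_exp_mul {χ g : ℂ → (Fin m → ℝ) → ℝ} (hχ : JS χ) (hg : JS g) (q : ℝ) (v z : ℂ)
    (t : Fin m → ℝ) :
    fderiv ℝ (fun z => Real.exp (q * χ z t) * g z t) z v =
      q * (Real.exp (q * χ z t) * (fderiv ℝ (fun z => χ z t) z v * g z t)) +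
        Real.exp (q * χ z t) * fderiv ℝ (fun z => g z t) z v := by
  have h1 : HasFDerivAt (fun z => χ z t) (fderiv ℝ (fun z => χ z t) z) z :=
    (diffAt (slice hχ t) z).hasFDerivAt
  have h2 : HasFDerivAt (fun z => g z t) (fderiv ℝ (fun z => g z t) z) z :=
    (diffAt (slice hg t) z).hasFDerivAt
  have h3 := ((h1.const_mul q).exp.mul h2).fderiv
  have h4 : fderiv ℝ (fun z => Real.exp (q * χ z t) * g z t) z =
      fderiv ℝ ((fun z => Real.exp (q * χ z t)) * fun z => g z t) z := rfl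
  rw [h4, h3]
  simp only [ContinuousLinearMap.add_apply, ContinuousLinearMap.smul_apply, smul_eq_mul]
  ring

section main

variable {χ : ℂ → (Fin m → ℝ) → ℝ} {q : ℝ} {v : ℂ}

theorem first (hχ : JS χ) (hq : q ≠ 0)
    (hs : ∀ h : ℂ → (Fin m → ℝ) → ℝ, JS h → ContDiff ℝ ∞ (fun z => tI (h z)))
    (hv : ∀ h : ℂ → (Fin m → ℝ) → ℝ, JS h → ∀ z, fderiv ℝ (fun z => tI (h z)) z v =
      tI (fun t => fderiv ℝ (fun z => h z t) z v)) (z : ℂ) :
    fderiv ℝ (lm q χ) z v = mn q χ (fun z t => fderiv ℝ (fun z => χ z t) z v) z ∧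
    fderiv ℝ (fun z => tI (fun t => Real.exp (q * χ z t))) z v =
      q * tI (fun t => Real.exp (q * χ z t) * fderiv ℝ (fun z => χ z t) z v) := by
  have hE := js_exp hχ q
  have hI := hs _ hE
  have hpos : ∀ z, 0 < tI (fun t => Real.exp (q * χ z t)) := fun z =>
    tI_pos (slice_cont hE z) (fun t => Real.exp_pos _)
  have hone : JS (fun (_ : ℂ) (_ : Fin m → ℝ) => (1 : ℝ)) := contDiff_const
  have h2 : fderiv ℝ (fun z => tI (fun t => Real.exp (q * χ z t))) z v =
      q * tI (fun t => Real.exp (q * χ z t) * fderiv ℝ (fun z => χ z t) z v) := by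
    rw [hv _ hE z, ← tI_mul]
    congr 1
    funext t
    have h3 := der_exp_mul hχ hone q v z t
    simp only [mul_one, fderiv_fun_const, Pi.zero_apply, ContinuousLinearMap.zero_apply, mul_zero,
      add_zero] at h3
    exact h3
  refine ⟨?_, h2⟩
  have h4 : HasFDerivAt (fun z => tI (fun t => Real.exp (q * χ z t)))
      (fderiv ℝ (fun z => tI (fun t => Real.exp (q * χ z t))) z) z := (diffAt hI z).hasFDerivAt
  have h5 := ((h4.log (hpos z).ne').const_mul (1 / q)).fderiv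
  have h6 : fderiv ℝ (lm q χ) z =
      fderiv ℝ (fun z => 1 / q * Real.log (tI (fun t => Real.exp (q * χ z t)))) z := rfl
  rw [h6, h5]
  simp only [ContinuousLinearMap.smul_apply, smul_eq_mul]
  rw [h2]
  unfold mn
  have := (hpos z).ne'
  field_simp

theorem second (hχ : JS χ) (hq : q ≠ 0) (hlm : ContDiff ℝ ∞ (lm q χ))
    (hs : ∀ h : ℂ → (Fin m → ℝ) → ℝ, JS h → ContDiff ℝ ∞ (fun z => tI (h z)))
    (hv : ∀ h : ℂ → (Fin m → ℝ) → ℝ, JS h → ∀ z, fderiv ℝ (fun z => tI (h z)) z v =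
      tI (fun t => fderiv ℝ (fun z => h z t) z v)) (z : ℂ) :
    fderiv ℝ (fun z => fderiv ℝ (lm q χ) z v) z v =
      mn q χ (fun z t => fderiv ℝ (fun z => fderiv ℝ (fun z => χ z t) z v) z v) z
      + q * (mn q χ (fun z t => fderiv ℝ (fun z => χ z t) z v ^ 2) z
        - fderiv ℝ (lm q χ) z v ^ 2) := by
  have hE := js_exp hχ q
  have hI := hs _ hE
  have hpos : ∀ z, 0 < tI (fun t => Real.exp (q * χ z t)) := fun z =>
    tI_pos (slice_cont hE z) (fun t => Real.exp_pos _)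
  set χ' : ℂ → (Fin m → ℝ) → ℝ := fun z t => fderiv ℝ (fun z => χ z t) z v with hχ'
  have hD : JS χ' := smooth_D hχ v
  set G : ℂ → ℝ := fun z => fderiv ℝ (lm q χ) z v with hG
  set I : ℂ → ℝ := fun z => tI (fun t => Real.exp (q * χ z t)) with hIdef
  set N : ℂ → ℝ := fun z => tI (fun t => Real.exp (q * χ z t) * χ' z t) with hN
  have hf := fun z => (first hχ hq hs hv z).1
  have hf2 : fderiv ℝ I z v = q * N z := (first hχ hq hs hv z).2
  have hGI : ∀ z, G z * I z = N z := by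
    intro z
    have h1 : G z = N z / I z := hf z
    rw [h1]
    exact div_mul_cancel₀ _ (hpos z).ne'
  have hGsm : ContDiff ℝ ∞ G := by
    have h3 : ContDiff ℝ ∞ (fun z => fderiv ℝ (lm q χ) z) :=
      hlm.fderiv_right (m := ∞) (by simp)
    exact h3.clm_apply contDiff_const
  have h7 : HasFDerivAt G (fderiv ℝ G z) z := (diffAt hGsm z).hasFDerivAt
  have h8 : HasFDerivAt I (fderiv ℝ I z) z := (diffAt hI z).hasFDerivAt
  have h9 := (h7.mul h8).fderiv
  have h10 : fderiv ℝ (G * I) z = fderiv ℝ N z := by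
    congr 1
    funext z
    exact hGI z
  rw [h10] at h9
  have h11 : fderiv ℝ N z v = G z * fderiv ℝ I z v + I z * fderiv ℝ G z v := by
    rw [h9]
    simp only [ContinuousLinearMap.add_apply, ContinuousLinearMap.smul_apply, smul_eq_mul]
  have h12 : fderiv ℝ N z v =
      q * tI (fun t => Real.exp (q * χ z t) * χ' z t ^ 2) +
        tI (fun t => Real.exp (q * χ z t) * fderiv ℝ (fun z => χ' z t) z v) := by
    rw [hN, hv _ (js_mul hE hD) z, ← tI_mul, ← tI_add]
    · congr 1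
      funext t
      rw [der_exp_mul hχ hD q v z t]
      rw [pow_two]
    · exact continuous_const.mul ((slice_cont hE z).mul ((slice_cont hD z).pow 2))
    · exact (slice_cont hE z).mul (slice_cont (smooth_D hD v) z)
  have h13 : fderiv ℝ G z v = (fderiv ℝ N z v - G z * fderiv ℝ I z v) / I z := by
    rw [h11, eq_div_iff (hpos z).ne']
    ring
  show fderiv ℝ G z v = mn q χ (fun z t => fderiv ℝ (fun z => χ' z t) z v) z
    + q * (mn q χ (fun z t => χ' z t ^ 2) z - G z ^ 2)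
  rw [h13, h12, hf2]
  have h14 : N z = G z * I z := (hGI z).symm
  rw [h14]
  unfold mn
  have h15 : tI (fun t => Real.exp (q * χ z t)) = I z := rfl
  rw [h15]
  have := (hpos z).ne'
  have h16 : I z ≠ 0 := this
  field_simp
  ring

end main

theorem avd (h1 : DuiStmt) : AvdStmt := by
  intro m χ q hχ hq
  have hJ : JS χ := hχ.smooth
  have hs : ∀ h : ℂ → (Fin m → ℝ) → ℝ, JS h → ContDiff ℝ ∞ (fun z => tI (h z)) :=
    fun h hh => (h1 m h hh).1
  have hvx : ∀ h : ℂ → (Fin m → ℝ) → ℝ, JS h → ∀ z, fderiv ℝ (fun z => tI (h z)) z 1 =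
      tI (fun t => fderiv ℝ (fun z => h z t) z 1) := fun h hh => (h1 m h hh).2.1
  have hvy : ∀ h : ℂ → (Fin m → ℝ) → ℝ, JS h → ∀ z, fderiv ℝ (fun z => tI (h z)) z Complex.I =
      tI (fun t => fderiv ℝ (fun z => h z t) z Complex.I) := fun h hh => (h1 m h hh).2.2
  have hE := js_exp hJ q
  have hpos : ∀ z, 0 < tI (fun t => Real.exp (q * χ z t)) := fun z =>
    tI_pos (slice_cont hE z) (fun t => Real.exp_pos _)
  have hlm : ContDiff ℝ ∞ (lm q χ) := by
    have h2 : ContDiff ℝ ∞ (fun z => Real.log (tI (fun t => Real.exp (q * χ z t)))) :=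
      (hs _ hE).log (fun z => (hpos z).ne')
    exact contDiff_const.mul h2
  refine ⟨hlm, fun z => (first hJ hq hs hvx z).1, fun z => (first hJ hq hs hvy z).1, ?_⟩
  intro z
  have hx := second hJ hq hlm hs hvx z
  have hy := second hJ hq hlm hs hvy z
  have e1 : lap (lm q χ) z = fderiv ℝ (fun z => fderiv ℝ (lm q χ) z 1) z 1
      + fderiv ℝ (fun z => fderiv ℝ (lm q χ) z Complex.I) z Complex.I := rfl
  have hDx := smooth_D hJ 1
  have hDy := smooth_D hJ Complex.I
  have e2 : mn q χ (fun z t => lap (fun z => χ z t) z) z =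
      mn q χ (fun z t => fderiv ℝ (fun z => fderiv ℝ (fun z => χ z t) z 1) z 1) z +
      mn q χ (fun z t => fderiv ℝ (fun z => fderiv ℝ (fun z => χ z t) z Complex.I) z Complex.I) z := by
    unfold mn
    rw [← add_div, ← tI_add]
    · congr 2
      funext t
      rw [← mul_add]
      rfl
    · exact (slice_cont hE z).mul (slice_cont (smooth_D hDx 1) z)
    · exact (slice_cont hE z).mul (slice_cont (smooth_D hDy Complex.I) z)
  have e3 : mn q χ (fun z t => grad2 (fun z => χ z t) z) z =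
      mn q χ (fun z t => fderiv ℝ (fun z => χ z t) z 1 ^ 2) z +
      mn q χ (fun z t => fderiv ℝ (fun z => χ z t) z Complex.I ^ 2) z := by
    unfold mn
    rw [← add_div, ← tI_add]
    · congr 2
      funext t
      rw [← mul_add]
      rfl
    · exact (slice_cont hE z).mul ((slice_cont hDx z).pow 2)
    · exact (slice_cont hE z).mul ((slice_cont hDy z).pow 2)
  have e4 : grad2 (lm q χ) z = fderiv ℝ (lm q χ) z 1 ^ 2 + fderiv ℝ (lm q χ) z Complex.I ^ 2 := rfl
  rw [e1, hx, hy, e2, e3, e4]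
  ring

end Pool.Agent.BCS.H15
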