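import Pool.Agent.BCS.Stmts3

set_option autoImplicit false

noncomputable section

open scoped ContDiff Topology
open Set MeasureTheory

namespace Pool.Agent.BCS.H15

open Pool.Agent.BCS
open Pool.Agent.SecondKind (Coord pd inv christoffel ricci)

variable {m : ℕ}

theorem rad_add_mul {φ g : ℂ → ℝ} (hφ : ContDiff ℝ ∞ φ) (hg : ContDiff ℝ ∞ g) (c : ℝ) (z : ℂ) :
    rad (fun z => φ z + c * g z) z = rad φ z + c * rad g z := by
  have h1 : DifferentiableAt ℝ φ z := (hφ.differentiable (by simp)) z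
  have h2 : DifferentiableAt ℝ g z := (hg.differentiable (by simp)) z
  have h3 : fderiv ℝ (fun z => φ z + c * g z) z = fderiv ℝ φ z + c • fderiv ℝ g z :=
    (h1.hasFDerivAt.add (h2.hasFDerivAt.const_mul c)).fderiv
  unfold rad dx dy
  rw [h3]
  simp only [ContinuousLinearMap.add_apply, ContinuousLinearMap.smul_apply, smul_eq_mul]
  ring

theorem fibM_cfm {k : ℂ → Coord m} (hk : FibM k) {χ : ℂ → (Fin m → ℝ) → ℝ} (hχ : SmP χ) (β : ℝ) :
    FibM (fun z => cfm (fun t => β * χ z t) (k z)) := by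
  refine ⟨fun i j => ?_, fun z t l => ?_, fun z t i j => ?_, fun z t v hv => ?_⟩
  · have h1 : ContDiff ℝ ∞ (fun p : ℂ × (Fin m → ℝ) => Real.exp (2 * (β * χ p.1 p.2))) :=
      (contDiff_const.mul (contDiff_const.mul hχ.smooth)).exp
    exact h1.mul (hk.smooth i j)
  · show cfm (fun t => β * χ z t) (k z) (t + Pi.single l 1) = cfm (fun t => β * χ z t) (k z) t
    funext i j
    show Real.exp (2 * (β * χ z (t + Pi.single l 1))) * k z (t + Pi.single l 1) i j
      = Real.exp (2 * (β * χ z t)) * k z t i j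
    rw [hk.per, hχ.per]
  · show Real.exp (2 * (β * χ z t)) * k z t i j = Real.exp (2 * (β * χ z t)) * k z t j i
    rw [hk.symm]
  · have h1 := hk.pos z t v hv
    have h2 : ∑ i, ∑ j, cfm (fun t => β * χ z t) (k z) t i j * v i * v j =
        Real.exp (2 * (β * χ z t)) * ∑ i, ∑ j, k z t i j * v i * v j := by
      rw [Finset.mul_sum]
      refine Finset.sum_congr rfl fun i _ => ?_
      rw [Finset.mul_sum]
      refine Finset.sum_congr rfl fun j _ => ?_
      show Real.exp (2 * (β * χ z t)) * k z t i j * v i * v j = _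
      ring
    show 0 < ∑ i, ∑ j, cfm (fun t => β * χ z t) (k z) t i j * v i * v j
    rw [h2]
    exact mul_pos (Real.exp_pos _) h1

theorem lvol_cfm {k : ℂ → Coord m} {F : ℂ → ℝ} {χ : ℂ → (Fin m → ℝ) → ℝ} (β : ℝ)
    (hdet : ∀ z t, (Matrix.of (k z t)).det = Real.exp (2 * F z)) (z : ℂ) (t : Fin m → ℝ) :
    lvol (fun z => cfm (fun t => β * χ z t) (k z)) z t = F z + (m * β) * χ z t := by
  unfold lvol
  have h1 : Matrix.of (cfm (fun t => β * χ z t) (k z) t) =
      Real.exp (2 * (β * χ z t)) • Matrix.of (k z t) := rfl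
  rw [h1, Matrix.det_smul, hdet, Fintype.card_fin, ← Real.exp_nat_mul, ← Real.exp_add, Real.log_exp]
  ring

theorem hc3 (h1 : Hm3Stmt) : Hc3Stmt := by
  intro m φ F k χ α β hφ hF hk hχ hdet y hy
  have hU : ContDiff ℝ ∞ (fun p : ℂ × (Fin m → ℝ) => φ p.1 + α * χ p.1 p.2) :=
    (hφ.comp contDiff_fst).add (contDiff_const.mul hχ.smooth)
  have hs : ContDiff ℝ ∞ (fun z => χ z (tl y)) := by
    have h2 : ContDiff ℝ ∞ (fun z : ℂ => (z, tl y)) := contDiff_id.prodMk contDiff_const
    exact ContDiff.comp (g := fun p : ℂ × (Fin m → ℝ) => χ p.1 p.2) hχ.smooth h2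
  have h2 := h1 m (fun z t => φ z + α * χ z t) (fun z => cfm (fun t => β * χ z t) (k z)) hU
    (fibM_cfm hk hχ β) y hy
  have h3 : (fun z => lvol (fun z => cfm (fun t => β * χ z t) (k z)) z (tl y)) =
      fun z => F z + (m * β) * χ z (tl y) := by
    funext z
    exact lvol_cfm β hdet z (tl y)
  unfold mt3
  rw [h2, h3, rad_add_mul hφ hs, rad_add_mul hF hs]
  ring

end Pool.Agent.BCS.H15
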